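import Mathlib
import Pool.Agent.H27.Paint

set_option autoImplicit false

namespace Pool.Agent.Results.MP_8484b9_co.Plateau

open Finset

section
variable {V : Type} [Fintype V] (G : SimpleGraph V)

def Dist {d : ℕ} (c : V → Fin d) : Prop := ∀ φ : G ≃g G, (∀ v, c (φ v) = c v) → ∀ v, φ v = v

noncomputable def D : ℕ := sInf {d | ∃ c : V → Fin d, Dist G c}

noncomputable def Fix : ℕ :=
  sInf {k | ∃ S : Finset V, S.card = k ∧ ∀ φ : G ≃g G, (∀ v ∈ S, φ v = v) → ∀ v, φ v = v}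

noncomputable def rho (d : ℕ) : ℕ :=
  sInf {k | ∃ c : V → Fin d, Dist G c ∧ ∃ i, #{v | c v ≠ i} = k}

noncomputable def F : ℕ := sInf {d | D G ≤ d ∧ rho G d = Fix G}
end

open Pool.Agent.H27.Paint

lemma cover (S : Finset V) (h : S.card ≤ 3) : ∃ a b c : V, S ⊆ {a, b, c} := by
  obtain ⟨U, hU, h3⟩ := exists_superset_card_eq h (by decide +kernel : 3 ≤ Fintype.card V)
  obtain ⟨a, b, c, -, -, -, rfl⟩ := card_eq_three.mp h3
  exact ⟨a, b, c, hU⟩

lemma pres {d : ℕ} (c : V → Fin d) (i : Fin d) (φ : G ≃g G) (S : Finset V)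
    (hS : ∀ v, c v ≠ i → v ∈ S) (h : ∀ v ∈ S, φ v ∈ S ∧ c (φ v) = c v) (v : V) : c (φ v) = c v := by
  by_cases hv : v ∈ S
  · exact (h v hv).2
  · have h1 : φ v ∉ S := fun h2 => hv <| by
      have : S.image φ = S := eq_of_subset_of_card_le (fun _ hx => by
          obtain ⟨y, hy, rfl⟩ := mem_image.mp hx; exact (h y hy).1)
          (card_image_of_injective _ φ.injective).ge
      obtain ⟨y, hy, e⟩ := mem_image.mp (this.ge h2)
      rwa [← φ.injective e]
    rw [not_not.mp (mt (hS _) h1), not_not.mp (mt (hS _) hv)]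

lemma lowd {d : ℕ} (c : V → Fin d) (hc : Dist G c) (i : Fin d) (x y z : V)
    (h : ∀ v, c v ≠ i → v ∈ ({x, y, z} : Finset V)) : c x ≠ c y := by
  intro e
  obtain ⟨φ, ⟨v, hv⟩, h1, h2⟩ := low x y z
  refine hv (hc φ (pres c i φ _ h fun w hw => ?_) v)
  simp only [mem_insert, mem_singleton] at hw ⊢
  rcases h2 with ⟨h2, h3⟩ | ⟨h2, h3⟩ <;> rcases hw with rfl | rfl | rfl <;> simp [*]

lemma rho_ge (d : ℕ) (c : V → Fin d) (hc : Dist G c) (i : Fin d) :
    3 ≤ #{v | c v ≠ i} ∧ (d ≤ 3 → 4 ≤ #{v | c v ≠ i}) := by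
  constructor
  · by_contra h
    obtain ⟨U, hU, h3⟩ := exists_superset_card_eq (show #{v | c v ≠ i} ≤ 2 by omega)
      (by decide +kernel : 2 ≤ Fintype.card V)
    obtain ⟨a, b, -, rfl⟩ := card_eq_two.mp h3
    exact lowd c hc i a a b (fun v hv => by simpa using hU (by simpa using hv)) rfl
  · intro hd
    by_contra h
    obtain ⟨x, y, z, hS⟩ := cover _ (show #{v | c v ≠ i} ≤ 3 by omega)
    have h0 : ∀ v, c v ≠ i → v = x ∨ v = y ∨ v = z := fun v hv => by simpa using hS (by simpa using hv)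
    have h1 := lowd c hc i x y z fun v hv => by simpa using h0 v hv
    have h2 := lowd c hc i y z x fun v hv => by have := h0 v hv; simp; tauto
    have h3 := lowd c hc i z x y fun v hv => by have := h0 v hv; simp; tauto
    have h4 : c x ≠ i := fun e => lowd c hc i y y z (fun v hv => by
      rcases h0 v hv with rfl | rfl | rfl <;> simp_all) rfl
    have h5 : c y ≠ i := fun e => lowd c hc i x x z (fun v hv => by
      rcases h0 v hv with rfl | rfl | rfl <;> simp_all) rfl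
    have h6 : c z ≠ i := fun e => lowd c hc i x x y (fun v hv => by
      rcases h0 v hv with rfl | rfl | rfl <;> simp_all) rfl
    omega

def c4 (d : ℕ) (v : V) : Fin (d + 2) := if v ∈ S4 then 1 else 0
def c3 (v : V) : Fin 4 := if v = T 0 then 1 else if v = T 1 then 2 else if v = T 2 then 3 else 0

lemma d4 (d : ℕ) : Dist G (c4 d) := fun φ h => up4 φ fun v hv => by
  have := h v
  by_contra h1
  simp [c4, hv, h1] at this

lemma rho4 (d : ℕ) (hd : d ≤ 1) : rho G (d + 2) = 4 :=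
  IsLeast.csInf_eq ⟨⟨c4 d, d4 d, 0, by
    rw [show (univ.filter fun v => c4 d v ≠ 0) = S4 by ext v; simp [c4]]; rfl⟩,
    by rintro _ ⟨c, hc, i, rfl⟩; exact (rho_ge _ c hc i).2 (by omega)⟩

lemma rho3 : rho G 4 = 3 :=
  IsLeast.csInf_eq ⟨⟨c3, fun φ h => up3 φ fun k => by
    have : ∀ k v, c3 v = c3 (T k) → v = T k := by decide +kernel
    exact this k _ (h _), 0, by decide +kernel⟩,
    by rintro _ ⟨c, hc, i, rfl⟩; exact (rho_ge _ c hc i).1⟩

lemma fix3 : Fix G = 3 :=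
  IsLeast.csInf_eq ⟨⟨univ.image T, by decide +kernel, fun φ h =>
    up3 φ fun k => h _ (mem_image_of_mem _ (mem_univ k))⟩, by
    rintro _ ⟨S, rfl, h⟩
    by_contra h1
    obtain ⟨U, hU, h3⟩ := exists_superset_card_eq (show S.card ≤ 2 by omega)
      (by decide +kernel : 2 ≤ Fintype.card V)
    obtain ⟨a, b, -, rfl⟩ := card_eq_two.mp h3
    obtain ⟨φ, ⟨v, hv⟩, h4, h5⟩ := low a a b
    refine hv (h φ (fun w hw => ?_) v)
    rcases mem_insert.mp (hU hw) with rfl | h6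
    · exact h5.elim And.left And.left
    · rw [mem_singleton.mp h6, h4]⟩

lemma D2 : D G = 2 :=
  IsLeast.csInf_eq ⟨⟨c4 0, d4 0⟩, by
    rintro d ⟨c, hc⟩
    by_contra h
    obtain ⟨φ, ⟨v, hv⟩, -⟩ := low (pt 0) (pt 0) (pt 0)
    exact hv (hc φ (fun w => Fin.ext (by have := (c w).2; have := (c (φ w)).2; omega)) v)⟩

theorem result : ∃ (V : Type) (_ : Fintype V) (G : SimpleGraph V),
    D G + 1 < F G ∧ rho G (D G) = rho G (D G + 1) ∧ rho G (D G) ≠ Fix G := by
  have h2 := rho4 0 (by omega)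
  have h3 := rho4 1 le_rfl
  have hF : F G = 4 := IsLeast.csInf_eq ⟨⟨by rw [D2]; omega, by rw [rho3, fix3]⟩, by
    rintro d ⟨h4, h5⟩
    rw [D2] at h4
    rw [fix3] at h5
    by_contra h
    obtain rfl | rfl : d = 2 ∨ d = 3 := by omega
    · simp [h2] at h5
    · simp [h3] at h5⟩
  refine ⟨V, inferInstance, G, ?_⟩
  rw [D2, hF, fix3, h2, h3]
  decide

end Pool.Agent.Results.MP_8484b9_co.Plateau
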